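import Pool.Agent.Lib.ROB.CA_Src
import Pool.Agent.Lib.ROB.B_HOM
import Pool.Agent.Lib.ROB.B_KEY
import Pool.Agent.Lib.ROB.B_FLAT2
import Pool.Agent.Lib.ROB.H2

/-!
Robust closure is not persistent under local homomorphisms of complete local domains.
-/

namespace Pool.Agent.Results.MP_01d48b_ag.NotPersistent

open Pool.Agent.ROB

theorem result :
    ∃ (R S : Type) (_ : CommRing R) (_ : IsDomain R) (_ : IsNoetherianRing R) (_ : IsLocalRing R)
      (_ : IsAdicComplete (IsLocalRing.maximalIdeal R) R)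
      (_ : CommRing S) (_ : IsDomain S) (_ : IsNoetherianRing S) (_ : IsLocalRing S)
      (_ : IsAdicComplete (IsLocalRing.maximalIdeal S) S)
      (φ : R →+* S) (_ : IsLocalHom φ) (I : Ideal R) (r : R),
      r ∈ robustClosure I ∧ φ r ∉ robustClosure (I.map φ) := by
  obtain ⟨W, B, Q, _, _, _, _, _, t, ⟨b⟩⟩ := Pool.Agent.Lib.ROB.stBIG
  have hV := Pool.Agent.Lib.ROB.stVAN Pool.Agent.Lib.ROB.stDSQ Pool.Agent.Lib.ROB.stHOM
  have hF := Pool.Agent.Lib.ROB.stFLAT2 (Pool.Agent.Lib.ROB.stKEY Pool.Agent.Lib.ROB.stDSQ hV)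
  exact CA.counterexample_of_isRobust (CA.isRobust_of_flat b (hF W t))

end Pool.Agent.Results.MP_01d48b_ag.NotPersistent
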